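import Mathlib
import Pool.Agent.H364R2.EEb

set_option autoImplicit false

namespace Pool.Agent.Results.MP_58ae59_nt.PowersNearOne

open Real Pool.Agent.H43R2.Cplx.EMeas Pool.Agent.H364R2.EE

theorem index_ge (n0 : ℕ) (b : ℤ) (hb : (q n0 : ℤ) ≤ b) :
    ∃ n : ℕ, n0 ≤ n ∧ (q n : ℤ) ≤ b ∧ b < q (n + 1) := by
  classical
  have hb1 : 1 ≤ b := by
    have h0 := (q_pos n0).1
    omega
  have hex : ∃ n, b < q (n + 1) := by
    refine ⟨b.toNat, ?_⟩
    have h1 := q_growth b.toNat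
    have h2 : b.toNat < 2 ^ b.toNat := Nat.lt_two_pow_self
    have h3 : (b.toNat : ℤ) = b := Int.toNat_of_nonneg (by omega)
    have h4 : b.toNat < q (b.toNat + 1) := lt_of_lt_of_le h2 h1
    have h5 : (b.toNat : ℤ) < (q (b.toNat + 1) : ℤ) := by exact_mod_cast h4
    omega
  have h1 : b < q (Nat.find hex + 1) := Nat.find_spec hex
  have h3 : n0 ≤ Nat.find hex := by
    by_contra hc
    have h2 : q (Nat.find hex + 1) ≤ q n0 := q_mono (by omega)
    have h4 : (q (Nat.find hex + 1) : ℤ) ≤ q n0 := by exact_mod_cast h2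
    omega
  refine ⟨Nat.find hex, h3, ?_, h1⟩
  rcases Nat.eq_zero_or_pos (Nat.find hex) with h0 | h0
  · rw [h0]
    simp only [q]
    exact_mod_cast hb1
  · have h2 : ¬ (b < q ((Nat.find hex - 1) + 1)) := Nat.find_min hex (by omega)
    rw [show Nat.find hex - 1 + 1 = Nat.find hex by omega] at h2
    omega

/-- basic inequalities -/
theorem basics1 (n : ℕ) (hn : 1 ≤ n) :
    0 < (q n : ℝ) ∧ 0 < (q (n + 1) : ℝ) ∧ 0 < I n ∧ 0 < I (n + 1) ∧
    (q (n + 1) : ℝ) * I n ≤ 2 ∧ (4 * (n : ℝ) + 2) * (q n : ℝ) ≤ q (n + 1) ∧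
    (q (n + 1) : ℝ) * I (n + 1) * n ≤ 1 / 2 := by
  have hq : 0 < (q n : ℝ) := by exact_mod_cast (q_pos n).1
  have hq1 : 0 < (q (n + 1) : ℝ) := by exact_mod_cast (q_pos n).2
  have hq0 : (0 : ℝ) ≤ q (n - 1) := by positivity
  have hi := I_pos n
  have hi' := I_pos (n + 1)
  have hqI := q_I n
  have hn' : (1 : ℝ) ≤ n := by exact_mod_cast hn
  have h1 : (4 * (n : ℝ) + 2) * (q n : ℝ) ≤ q (n + 1) := by
    rw [q_rec n (by omega)]
    linarith
  have h2 : (q (n + 1) : ℝ) * I n ≤ 2 := by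
    have : 0 < (q n : ℝ) * I (n + 1) := by positivity
    linarith
  refine ⟨hq, hq1, hi, hi', h2, h1, ?_⟩
  have h3 := I_bound n
  have h4 : (q (n + 1) : ℝ) * ((4 * (n : ℝ) + 6) * I (n + 1)) ≤ 2 :=
    (mul_le_mul_of_nonneg_left h3 hq1.le).trans h2
  have h5 : 0 < (q (n + 1) : ℝ) * I (n + 1) := mul_pos hq1 hi'
  nlinarith

/-- the product of the two coordinates -/
theorem prod_est (s b ε I0 I1 q0 q1 : ℝ) (hs : s * s = 1) (hqI : q1 * I0 + q0 * I1 = 2) :
    (b * I1 + s * ε * q1) * (b * I0 - s * ε * q0) - 2 * s * (b * ε) =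
      (b * I0) * (b * I1) - 2 * s * (b * ε) * (q0 * I1) - (ε * q0) * (ε * q1) := by
  have h : (b * I1 + s * ε * q1) * (b * I0 - s * ε * q0) =
      (b * I0) * (b * I1) + s * (b * ε) * (q1 * I0 - q0 * I1) - (s * s) * ((ε * q0) * (ε * q1)) := by
    ring
  rw [h, hs]
  have h2 : q1 * I0 = 2 - q0 * I1 := by linarith
  rw [h2]; ring

theorem sgn_sq (n : ℕ) : ((-1 : ℝ) ^ n) * ((-1 : ℝ) ^ n) = 1 := by
  rw [← mul_pow]; simp

theorem abs_sgn (n : ℕ) : |((-1 : ℝ) ^ n)| = 1 := by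
  rw [abs_pow]; simp

/-- turning an estimate for the product of the coordinates into an integer near `2 θ` -/
theorem to_int (n : ℕ) (X Y : ℤ) (θ K : ℝ)
    (h : |(X : ℝ) * Y - 2 * (-1) ^ n * θ| ≤ K) : ∃ N : ℤ, |2 * θ - N| ≤ K := by
  refine ⟨(-1) ^ n * (X * Y), ?_⟩
  have h1 : 2 * θ - (((-1) ^ n * (X * Y) : ℤ) : ℝ) =
      -((-1) ^ n) * ((X : ℝ) * Y - 2 * (-1) ^ n * θ) := by
    push_cast
    have := sgn_sq n
    linear_combination (-2 * θ) * this
  rw [h1, abs_mul, abs_neg, abs_sgn, one_mul]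
  exact h

/-- if `b (b e - a) = θ` is bounded and `b` is large, then `a / b` is one of the fractions
`r n / q n`, or `2 θ` is close to an integer -/
theorem near (C : ℝ) (hC : 1 ≤ C) (n : ℕ) (hn : 2 ≤ n) (a b : ℤ) (hqb : (q n : ℤ) ≤ b)
    (hbq : b < q (n + 1)) (h0 : 0 < (b : ℝ) * (b * exp 1 - a))
    (h1 : (b : ℝ) * (b * exp 1 - a) ≤ C) :
    (∃ t : ℤ, a = t * r n ∧ b = t * q n) ∨
      ∃ N : ℤ, |2 * ((b : ℝ) * (b * exp 1 - a)) - N| ≤ 12 * C ^ 2 / n := by
  have hb0 : 0 < b := by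
    have := (q_pos n).1
    omega
  have hbR : (0 : ℝ) < b := by exact_mod_cast hb0
  have hεpos : 0 < (b : ℝ) * exp 1 - a := by
    by_contra hc
    have := mul_nonpos_of_nonneg_of_nonpos hbR.le (not_lt.mp hc)
    linarith
  have hqbR : (q n : ℝ) ≤ b := by exact_mod_cast hqb
  have hbqR : (b : ℝ) < q (n + 1) := by exact_mod_cast hbq
  obtain ⟨hq, hq1, hi, hi', hqi, hqq, hqi'⟩ := basics1 n (by omega)
  have hnR : (2 : ℝ) ≤ n := by exact_mod_cast hn
  have hnpos : (0 : ℝ) < n := by linarith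
  rcases lt_or_ge (b : ℝ) (2 * C * q n) with hcase | hcase
  · -- coordinates at level `n - 1`
    right
    obtain ⟨m, rfl⟩ : ∃ m, n = m + 1 := ⟨n - 1, by omega⟩
    obtain ⟨hq', -, hj, -, hqj, hqq', hqj'⟩ := basics1 m (by omega)
    obtain ⟨X, Y, ha, hbb, hX, hY⟩ := coords m a b
    generalize hε : (b : ℝ) * exp 1 - a = ε at *
    apply to_int m X Y
    have hkey := prod_est ((-1) ^ m) b ε (I m) (I (m + 1)) (q m) (q (m + 1)) (sgn_sq m) (q_I m)
    rw [hX, hY, hkey]
    have hm1 : (1 : ℝ) ≤ m := by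
      have : 1 ≤ m := by omega
      exact_mod_cast this
    have hmpos : (0 : ℝ) < m := by linarith
    -- bounds
    have b1 : (b : ℝ) * I m ≤ 4 * C := by
      have h2 : (b : ℝ) * I m ≤ (2 * C * q (m + 1)) * I m := mul_le_mul_of_nonneg_right hcase.le hj.le
      have h3 : (2 * C) * (q (m + 1) * I m) ≤ (2 * C) * 2 :=
        mul_le_mul_of_nonneg_left hqj (by linarith)
      linarith
    have b2 : (b : ℝ) * I (m + 1) * m ≤ C := by
      have h2 : (b : ℝ) * I (m + 1) ≤ (2 * C * q (m + 1)) * I (m + 1) :=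
        mul_le_mul_of_nonneg_right hcase.le hi.le
      have h3 : (b : ℝ) * I (m + 1) * m ≤ (2 * C * q (m + 1)) * I (m + 1) * m :=
        mul_le_mul_of_nonneg_right h2 hmpos.le
      have h4 : (2 * C) * (q (m + 1) * I (m + 1) * m) ≤ (2 * C) * (1 / 2) :=
        mul_le_mul_of_nonneg_left hqj' (by linarith)
      linarith
    have b1' : 0 < (b : ℝ) * I m := mul_pos hbR hj
    have b2' : 0 < (b : ℝ) * I (m + 1) := mul_pos hbR hi
    have c1 : (b * I m) * (b * I (m + 1)) * m ≤ 4 * C * C := by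
      have : (b * I m) * (b * I (m + 1) * m) ≤ (4 * C) * C :=
        mul_le_mul b1 b2 (by positivity) (by linarith)
      linarith
    have hw : ε * q (m + 1) ≤ C := by
      have := mul_le_mul_of_nonneg_left hqbR hεpos.le
      linarith [mul_comm ε (b : ℝ)]
    have hw0 : 0 < ε * q (m + 1) := mul_pos hεpos hq
    have hu0 : 0 < ε * q m := mul_pos hεpos hq'
    have hu : ε * q m * m ≤ C := by
      have h2 : ε * ((4 * (m : ℝ) + 2) * q m) ≤ ε * q (m + 1) :=
        mul_le_mul_of_nonneg_left hqq' hεpos.le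
      nlinarith
    have c3 : (ε * q m) * (ε * q (m + 1)) * m ≤ C * C := by
      have : (ε * q m * m) * (ε * q (m + 1)) ≤ C * C := mul_le_mul hu hw hw0.le (by linarith)
      linarith
    have hqmm : (q m : ℝ) ≤ q (m + 1) := by nlinarith
    have c2 : (b * ε) * (q m * I (m + 1)) * m ≤ C * (1 / 2) := by
      have h2 : (q m : ℝ) * I (m + 1) * m ≤ q (m + 1) * I (m + 1) * m := by
        have : (q m : ℝ) * I (m + 1) ≤ q (m + 1) * I (m + 1) :=
          mul_le_mul_of_nonneg_right hqmm hi.le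
        exact mul_le_mul_of_nonneg_right this hmpos.le
      have h3 : (b * ε) * (q m * I (m + 1) * m) ≤ C * (1 / 2) :=
        mul_le_mul h1 (h2.trans hqj') (by positivity) (by linarith)
      linarith
    have c2' : 0 < (b * ε) * (q m * I (m + 1)) := by positivity
    have c1' : 0 < (b * I m) * (b * I (m + 1)) := by positivity
    have c3' : 0 < (ε * q m) * (ε * q (m + 1)) := by positivity
    have htot : |b * I m * (b * I (m + 1)) - 2 * (-1) ^ m * (b * ε) * (q m * I (m + 1)) -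
        ε * q m * (ε * q (m + 1))| ≤ (b * I m) * (b * I (m + 1)) +
          2 * ((b * ε) * (q m * I (m + 1))) + (ε * q m) * (ε * q (m + 1)) := by
      have e1 : |2 * (-1) ^ m * (b * ε) * (q m * I (m + 1))| =
          2 * ((b * ε) * (q m * I (m + 1))) := by
        rw [show 2 * (-1) ^ m * (b * ε) * (q m * I (m + 1)) =
          (-1) ^ m * (2 * ((b * ε) * (q m * I (m + 1)))) by ring, abs_mul, abs_sgn, one_mul,
          abs_of_pos (by linarith)]
      refine (abs_sub _ _).trans ?_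
      rw [abs_of_pos c3']
      refine add_le_add ((abs_sub _ _).trans ?_) le_rfl
      rw [abs_of_pos c1', e1]
    refine htot.trans ?_
    rw [le_div_iff₀ (by push_cast; linarith)]
    push_cast
    have hm2 : (m : ℝ) + 1 ≤ 2 * m := by linarith
    have hsum0 : 0 < (b * I m) * (b * I (m + 1)) +
          2 * ((b * ε) * (q m * I (m + 1))) + (ε * q m) * (ε * q (m + 1)) := by linarith
    have hC2 : C ≤ C ^ 2 := by nlinarith
    refine (mul_le_mul_of_nonneg_left hm2 hsum0.le).trans ?_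
    have e2 : ((b * I m) * (b * I (m + 1)) +
          2 * ((b * ε) * (q m * I (m + 1))) + (ε * q m) * (ε * q (m + 1))) * (2 * m) =
        2 * ((b * I m) * (b * I (m + 1)) * m) + 4 * ((b * ε) * (q m * I (m + 1)) * m) +
          2 * ((ε * q m) * (ε * q (m + 1)) * m) := by ring
    rw [e2]
    linarith
  · -- coordinates at level `n`
    obtain ⟨X, Y, ha, hbb, hX, hY⟩ := coords n a b
    have hpar := parity n hbb
    by_cases hY0 : Y = 0
    · left
      subst hY0
      have h3 : X = 2 * (X / 2) := by omega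
      refine ⟨X / 2, ?_, ?_⟩
      · have : 2 * a = 2 * (X / 2 * r n) := by
          rw [ha, ← mul_assoc, ← h3]; ring
        linarith
      · have : 2 * b = 2 * (X / 2 * q n) := by
          rw [hbb, ← mul_assoc, ← h3]; ring
        linarith
    · right
      generalize hε : (b : ℝ) * exp 1 - a = ε at *
      apply to_int n X Y
      have hkey := prod_est ((-1) ^ n) b ε (I n) (I (n + 1)) (q n) (q (n + 1)) (sgn_sq n) (q_I n)
      rw [hX, hY, hkey]
      have hu0 : 0 < ε * q n := mul_pos hεpos hq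
      have hw0 : 0 < ε * q (n + 1) := mul_pos hεpos hq1
      have hu : ε * q n ≤ 1 / 2 := by
        have h2 : (b : ℝ) * ε ≥ (2 * C * q n) * ε := mul_le_mul_of_nonneg_right hcase hεpos.le
        have h3 : (2 * C) * (ε * q n) ≤ (2 * C) * (1 / 2) := by nlinarith
        exact le_of_mul_le_mul_left h3 (by linarith)
      have hbI : 1 / 2 ≤ (b : ℝ) * I n := by
        have hbI0 : 0 < (b : ℝ) * I n := mul_pos hbR hi
        rcases neg_one_pow_eq_or ℝ n with hs | hs
        · rw [hs] at hY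
          rcases lt_or_gt_of_ne hY0 with h | h
          · have h5 : (Y : ℝ) ≤ -1 := by
              have : Y ≤ -1 := by omega
              exact_mod_cast this
            exfalso
            nlinarith
          · have h5 : (1 : ℝ) ≤ Y := by
              have : 1 ≤ Y := by omega
              exact_mod_cast this
            nlinarith
        · rw [hs] at hY
          have hYpos : (0 : ℝ) < Y := by rw [hY]; nlinarith
          have h5 : (1 : ℝ) ≤ Y := by
            have : 0 < Y := by exact_mod_cast hYpos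
            have : 1 ≤ Y := by omega
            exact_mod_cast this
          nlinarith
      have hw : ε * q (n + 1) ≤ 4 * C := by
        have h2 : (ε * q (n + 1)) * (b * I n) = (b * ε) * (q (n + 1) * I n) := by ring
        have h3 : (b * ε) * (q (n + 1) * I n) ≤ C * 2 :=
          mul_le_mul h1 hqi (by positivity) (by linarith)
        have h4 : (ε * q (n + 1)) * (1 / 2) ≤ (ε * q (n + 1)) * (b * I n) :=
          mul_le_mul_of_nonneg_left hbI hw0.le
        linarith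
      have b1 : (b : ℝ) * I n ≤ 2 := (mul_le_mul_of_nonneg_right hbqR.le hi.le).trans hqi
      have b2 : (b : ℝ) * I (n + 1) * n ≤ 1 / 2 := by
        have h2 : (b : ℝ) * I (n + 1) ≤ q (n + 1) * I (n + 1) :=
          mul_le_mul_of_nonneg_right hbqR.le hi'.le
        exact (mul_le_mul_of_nonneg_right h2 hnpos.le).trans hqi'
      have b2' : 0 < (b : ℝ) * I (n + 1) := mul_pos hbR hi'
      have b1' : 0 < (b : ℝ) * I n := mul_pos hbR hi
      have c1 : (b * I n) * (b * I (n + 1)) * n ≤ 1 := by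
        have : (b * I n) * (b * I (n + 1) * n) ≤ 2 * (1 / 2) :=
          mul_le_mul b1 b2 (by positivity) (by norm_num)
        linarith
      have hqmm : (q n : ℝ) ≤ q (n + 1) := by nlinarith
      have c2 : (b * ε) * (q n * I (n + 1)) * n ≤ C * (1 / 2) := by
        have h2 : (q n : ℝ) * I (n + 1) * n ≤ q (n + 1) * I (n + 1) * n := by
          have : (q n : ℝ) * I (n + 1) ≤ q (n + 1) * I (n + 1) :=
            mul_le_mul_of_nonneg_right hqmm hi'.le
          exact mul_le_mul_of_nonneg_right this hnpos.le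
        have h3 : (b * ε) * (q n * I (n + 1) * n) ≤ C * (1 / 2) :=
          mul_le_mul h1 (h2.trans hqi') (by positivity) (by linarith)
        linarith
      have hu' : ε * q n * n ≤ C := by
        have h2 : ε * ((4 * (n : ℝ) + 2) * q n) ≤ ε * q (n + 1) :=
          mul_le_mul_of_nonneg_left hqq hεpos.le
        nlinarith
      have c3 : (ε * q n) * (ε * q (n + 1)) * n ≤ C * (4 * C) := by
        have : (ε * q n * n) * (ε * q (n + 1)) ≤ C * (4 * C) :=
          mul_le_mul hu' hw hw0.le (by linarith)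
        linarith
      have c2' : 0 < (b * ε) * (q n * I (n + 1)) := by positivity
      have c1' : 0 < (b * I n) * (b * I (n + 1)) := by positivity
      have c3' : 0 < (ε * q n) * (ε * q (n + 1)) := by positivity
      have htot : |b * I n * (b * I (n + 1)) - 2 * (-1) ^ n * (b * ε) * (q n * I (n + 1)) -
          ε * q n * (ε * q (n + 1))| ≤ (b * I n) * (b * I (n + 1)) +
            2 * ((b * ε) * (q n * I (n + 1))) + (ε * q n) * (ε * q (n + 1)) := by
        have e1 : |2 * (-1) ^ n * (b * ε) * (q n * I (n + 1))| =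
            2 * ((b * ε) * (q n * I (n + 1))) := by
          rw [show 2 * (-1) ^ n * (b * ε) * (q n * I (n + 1)) =
            (-1) ^ n * (2 * ((b * ε) * (q n * I (n + 1)))) by ring, abs_mul, abs_sgn, one_mul,
            abs_of_pos (by linarith)]
        refine (abs_sub _ _).trans ?_
        rw [abs_of_pos c3']
        refine add_le_add ((abs_sub _ _).trans ?_) le_rfl
        rw [abs_of_pos c1', e1]
      refine htot.trans ?_
      rw [le_div_iff₀ hnpos]
      have hC2 : C ≤ C ^ 2 := by nlinarith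
      have hC3 : 1 ≤ C ^ 2 := by nlinarith
      have e2 : ((b * I n) * (b * I (n + 1)) +
            2 * ((b * ε) * (q n * I (n + 1))) + (ε * q n) * (ε * q (n + 1))) * n =
          (b * I n) * (b * I (n + 1)) * n + 2 * ((b * ε) * (q n * I (n + 1)) * n) +
            (ε * q n) * (ε * q (n + 1)) * n := by ring
      rw [e2]
      linarith

/-- if `b (b e - a)` is close to a fixed `θ₀ > 0` with `2 θ₀` not an integer and `b` is large, then
`a / b` is one of the fractions `r n / q n`, which have odd numerator and denominator -/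
theorem levelG (θ0 : ℝ) (hθ : 0 < θ0) (hni : ∀ N : ℤ, 2 * θ0 ≠ N) :
    ∃ δ : ℝ, 0 < δ ∧ ∃ B : ℕ, ∀ a b : ℤ, (B : ℤ) ≤ b →
      |(b : ℝ) * (b * exp 1 - a) - θ0| ≤ δ → ∃ n : ℕ, ∃ t : ℤ, a = t * r n ∧ b = t * q n := by
  set d : ℝ := |2 * θ0 - round (2 * θ0)| with hd
  have hd0 : 0 < d := abs_pos.2 (sub_ne_zero.2 (hni _))
  refine ⟨min (θ0 / 2) (min 1 (d / 8)), by positivity, q (max 2 (⌈48 * (θ0 + 1) ^ 2 / d⌉₊)), ?_⟩
  intro a b hb hab
  obtain ⟨n, hn, h1, h2⟩ := index_ge _ b hb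
  have hδ1 : |(b : ℝ) * (b * exp 1 - a) - θ0| ≤ θ0 / 2 := hab.trans (min_le_left _ _)
  have hδ2 : |(b : ℝ) * (b * exp 1 - a) - θ0| ≤ 1 :=
    hab.trans ((min_le_right _ _).trans (min_le_left _ _))
  have hδ3 : |(b : ℝ) * (b * exp 1 - a) - θ0| ≤ d / 8 :=
    hab.trans ((min_le_right _ _).trans (min_le_right _ _))
  generalize hθ' : (b : ℝ) * (b * exp 1 - a) = θ at *
  rw [abs_le] at hδ1 hδ2 hδ3
  have hn2 : 2 ≤ n := (le_max_left _ _).trans hn
  have hn3 : 48 * (θ0 + 1) ^ 2 / d ≤ n :=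
    (Nat.le_ceil _).trans (by exact_mod_cast (le_max_right _ _).trans hn)
  have hnpos : (0 : ℝ) < n := by
    have : 0 < n := by omega
    exact_mod_cast this
  rcases near (θ0 + 1) (by linarith) n hn2 a b h1 h2 (by rw [hθ']; linarith)
    (by rw [hθ']; linarith) with h | ⟨N, hN⟩
  · obtain ⟨t, ha, hb'⟩ := h
    exact ⟨n, t, ha, hb'⟩
  · exfalso
    rw [hθ'] at hN
    have h3 : 12 * (θ0 + 1) ^ 2 / n ≤ d / 4 := by
      rw [div_le_iff₀ hnpos]
      rw [div_le_iff₀ hd0] at hn3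
      linarith
    have h4 : d ≤ |2 * θ0 - N| := round_le (2 * θ0) N
    have h5 : |2 * θ0 - N| ≤ d / 2 := by
      have hN' := abs_le.1 (hN.trans h3)
      rw [abs_le]
      constructor <;> linarith
    linarith

theorem e_irr (A : ℕ) (hA : 1 ≤ A) (N : ℤ) : (A : ℝ) * exp 1 ≠ N := by
  intro h
  obtain ⟨n, -, hn⟩ := lower A hA N
  rw [h, sub_self, abs_zero] at hn
  have h2 : (0 : ℝ) < 1 / (8 * (4 * n + 3) * (A : ℝ)) := by
    have : (0 : ℝ) < (A : ℝ) := by exact_mod_cast hA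
    positivity
  linarith

theorem close (j k β e m θ0 δ : ℝ) (hj : 0 < j) (hk : 0 < k) (hβ : 2 ≤ β) (_he : 0 < e)
    (hθ0 : θ0 = (j * k) ^ 2 * e / 3) (hδ : 2 * θ0 ≤ δ * β ^ 2)
    (h1 : 2 * m * (3 * β ^ 2 + 1) ≤ 3 * β ^ 3 * (j * e))
    (h2 : 3 * β * (β ^ 2 - 1) * (j * e) ≤ 2 * m * (3 * β ^ 2 - 2)) :
    |j * k * β * (j * k * β * e - 2 * m * k) - θ0| ≤ δ := by
  set η : ℝ := j * β * e - 2 * m with hη
  have a1 : j * β * e ≤ (3 * β ^ 2 + 1) * η := by rw [hη]; nlinarith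
  have a2 : (3 * β ^ 2 - 2) * η ≤ j * β * e := by rw [hη]; nlinarith
  have hθ : j * k * β * (j * k * β * e - 2 * m * k) = (j * k ^ 2 * β) * η := by rw [hη]; ring
  rw [hθ]
  have hc : 0 ≤ j * k ^ 2 * β := by positivity
  have b1 := mul_le_mul_of_nonneg_left a1 hc
  have b2 := mul_le_mul_of_nonneg_left a2 hc
  set θ : ℝ := (j * k ^ 2 * β) * η with hθd
  have hβ2 : 4 ≤ β ^ 2 := by nlinarith
  have hθpos : 0 < θ0 := by rw [hθ0]; positivity
  have c1 : 3 * β ^ 2 * θ0 ≤ (3 * β ^ 2 + 1) * θ := by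
    rw [hθ0, hθd]; nlinarith
  have c2 : (3 * β ^ 2 - 2) * θ ≤ 3 * β ^ 2 * θ0 := by
    rw [hθ0, hθd]; nlinarith
  have hδ0 : 0 ≤ δ := by
    by_contra hneg
    push Not at hneg
    nlinarith
  rw [abs_le]
  constructor
  · by_contra hcon
    push Not at hcon
    have d1 : δ * β ^ 2 < (θ0 - θ) * β ^ 2 := by
      apply mul_lt_mul_of_pos_right _ (by linarith)
      linarith
    have d2 : 0 < θ0 - θ := by linarith
    nlinarith
  · by_contra hcon
    push Not at hcon
    have d1 : δ * β ^ 2 < (θ - θ0) * β ^ 2 := by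
      apply mul_lt_mul_of_pos_right _ (by linarith)
      linarith
    have d2 : 0 < θ - θ0 := by linarith
    nlinarith

/-- sharper bounds for the logarithm -/
theorem log_bounds2 (b : ℝ) (hb : 2 ≤ b) :
    (30 * b ^ 4 + 10 * b ^ 2 + 6) / (15 * b ^ 5) ≤ log ((b + 1) / (b - 1)) ∧
    log ((b + 1) / (b - 1)) ≤ (30 * b ^ 4 - 20 * b ^ 2 - 4) / (15 * b ^ 3 * (b ^ 2 - 1)) := by
  have hb0 : 0 < b := by linarith
  have hx1 : |1 / b| < 1 := by
    rw [abs_of_pos (by positivity), div_lt_one hb0]; linarith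
  have hs := Real.hasSum_log_sub_log_of_abs_lt_one hx1
  have hlog : log (1 + 1 / b) - log (1 - 1 / b) = log ((b + 1) / (b - 1)) := by
    have h1 : 1 + 1 / b = (b + 1) / b := by field_simp
    have h2 : 1 - 1 / b = (b - 1) / b := by field_simp
    rw [h1, h2, Real.log_div (by linarith) hb0.ne', Real.log_div (by linarith) hb0.ne',
      Real.log_div (by linarith) (by linarith)]
    ring
  rw [hlog] at hs
  constructor
  · have h := sum_le_hasSum (Finset.range 3) (fun k _ => by positivity) hs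
    refine le_trans (le_of_eq ?_) h
    simp [Finset.sum_range_succ]
    field_simp
    ring
  · have hx2 : 1 / b ^ 2 < 1 := by
      rw [div_lt_one (by positivity)]; nlinarith
    have hg : HasSum (fun k : ℕ => 2 / 5 * (1 / b) * (1 / b ^ 2) ^ k)
        (2 / 5 * (1 / b) * (1 - 1 / b ^ 2)⁻¹) :=
      (hasSum_geometric_of_lt_one (by positivity) hx2).mul_left _
    have hd : HasSum (fun k : ℕ => if k = 0 then 8 / 5 * (1 / b) else 0) (8 / 5 * (1 / b)) :=
      hasSum_ite_eq 0 _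
    have hd1 : HasSum (fun k : ℕ => if k = 1 then 4 / 15 * (1 / b) ^ 3 else 0)
        (4 / 15 * (1 / b) ^ 3) :=
      hasSum_ite_eq 1 _
    have hle := hasSum_le (fun k => ?_) hs ((hg.add hd).add hd1)
    · refine hle.trans (le_of_eq ?_)
      have : b ^ 2 - 1 ≠ 0 := by nlinarith
      have hb1 : 1 - 1 / b ^ 2 = (b ^ 2 - 1) / b ^ 2 := by field_simp
      rw [hb1]
      field_simp
      ring
    · by_cases hk : k = 0
      · subst hk
        simp
        apply le_of_eq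
        ring
      · by_cases hk1 : k = 1
        · subst hk1
          simp
          apply le_of_eq
          ring
        · simp only [hk, hk1, if_false, add_zero]
          have e1 : (1 / b) ^ (2 * k + 1) = (1 / b) * (1 / b ^ 2) ^ k := by
            rw [pow_succ, pow_mul]
            rw [one_div_pow]
            ring
          rw [e1]
          have hk2 : (2 : ℝ) ≤ k := by
            have : 2 ≤ k := by omega
            exact_mod_cast this
          have e2 : (2 : ℝ) * (1 / (2 * k + 1)) ≤ 2 / 5 := by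
            rw [mul_one_div, div_le_div_iff₀ (by positivity) (by norm_num)]
            linarith
          have e3 : 0 ≤ (1 / b) * (1 / b ^ 2) ^ k := by positivity
          calc 2 * (1 / (2 * (k : ℝ) + 1)) * (1 / b * (1 / b ^ 2) ^ k)
              ≤ 2 / 5 * (1 / b * (1 / b ^ 2) ^ k) := mul_le_mul_of_nonneg_right e2 e3
            _ = _ := by ring

theorem close2 (j k β e m L δ : ℝ) (hj : 0 < j) (hk : 0 < k) (hβ : 2 ≤ β) (_he : 0 < e)
    (hm : 0 ≤ m) (hL : j * e = m * L)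
    (hδ : 5 / 4 * (j ^ 2 * k ^ 4 * e) ≤ δ * β ^ 2)
    (h1 : (30 * β ^ 4 + 10 * β ^ 2 + 6) / (15 * β ^ 5) ≤ L)
    (h2 : L ≤ (30 * β ^ 4 - 20 * β ^ 2 - 4) / (15 * β ^ 3 * (β ^ 2 - 1))) :
    |(j * k ^ 2 * (3 * β ^ 2 - 1)) * ((j * k ^ 2 * (3 * β ^ 2 - 1)) * e - 6 * m * k ^ 2 * β) -
      4 / 5 * (j ^ 2 * k ^ 4 * e)| ≤ δ := by
  have hβ0 : 0 < β := by linarith
  have hz : 4 ≤ β ^ 2 := by nlinarith
  have hz1 : 0 < β ^ 2 - 1 := by linarith
  set F : ℝ := ((3 * β ^ 2 - 1) ^ 2 - 4 / 5) * L - 6 * β * (3 * β ^ 2 - 1) with hF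
  have hcoef : 0 ≤ (3 * β ^ 2 - 1) ^ 2 - 4 / 5 := by nlinarith
  have f1 : -(5 / 2) ≤ F * β ^ 3 := by
    have g1 := mul_le_mul_of_nonneg_left h1 hcoef
    have g2 : ((3 * β ^ 2 - 1) ^ 2 - 4 / 5) * ((30 * β ^ 4 + 10 * β ^ 2 + 6) / (15 * β ^ 5)) -
        6 * β * (3 * β ^ 2 - 1) = (6 / 5 - 34 * β ^ 2) / (15 * β ^ 5) := by
      field_simp
      ring
    have g3 : (6 / 5 - 34 * β ^ 2) / (15 * β ^ 5) ≤ F := by
      rw [← g2, hF]; linarith
    have g4 := mul_le_mul_of_nonneg_right g3 (by positivity : (0 : ℝ) ≤ β ^ 3)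
    refine le_trans ?_ g4
    have g5 : (6 / 5 - 34 * β ^ 2) / (15 * β ^ 5) * β ^ 3 = (6 / 5 - 34 * β ^ 2) / (15 * β ^ 2) := by
      field_simp
    rw [g5, le_div_iff₀ (by positivity)]
    nlinarith
  have f2 : F * β ^ 3 ≤ 5 / 2 := by
    have g1 := mul_le_mul_of_nonneg_left h2 hcoef
    have g2 : ((3 * β ^ 2 - 1) ^ 2 - 4 / 5) *
        ((30 * β ^ 4 - 20 * β ^ 2 - 4) / (15 * β ^ 3 * (β ^ 2 - 1))) -
        6 * β * (3 * β ^ 2 - 1) = (20 * β ^ 2 - 4 / 5) / (15 * β ^ 3 * (β ^ 2 - 1)) := by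
      field_simp
      ring
    have g3 : F ≤ (20 * β ^ 2 - 4 / 5) / (15 * β ^ 3 * (β ^ 2 - 1)) := by
      rw [← g2, hF]; linarith
    have g4 := mul_le_mul_of_nonneg_right g3 (by positivity : (0 : ℝ) ≤ β ^ 3)
    refine le_trans g4 ?_
    have g5 : (20 * β ^ 2 - 4 / 5) / (15 * β ^ 3 * (β ^ 2 - 1)) * β ^ 3 =
        (20 * β ^ 2 - 4 / 5) / (15 * (β ^ 2 - 1)) := by
      field_simp
    rw [g5, div_le_iff₀ (by positivity)]
    linarith
  -- `m ≤ j e β / 2`
  have hLlow : 2 / β ≤ L := by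
    refine le_trans ?_ h1
    rw [div_le_div_iff₀ hβ0 (by positivity)]
    nlinarith [pow_pos hβ0 3, pow_pos hβ0 1]
  have hmle : m ≤ j * e * β / 2 := by
    have g1 := mul_le_mul_of_nonneg_left hLlow hm
    rw [← hL, mul_div_assoc', div_le_iff₀ hβ0] at g1
    linarith
  have hid : (j * k ^ 2 * (3 * β ^ 2 - 1)) * ((j * k ^ 2 * (3 * β ^ 2 - 1)) * e -
      6 * m * k ^ 2 * β) - 4 / 5 * (j ^ 2 * k ^ 4 * e) = j * m * k ^ 4 * F := by
    rw [hF]
    linear_combination (j * k ^ 4 * ((3 * β ^ 2 - 1) ^ 2 - 4 / 5)) * hL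
  rw [hid]
  have hc : 0 ≤ j * m * k ^ 4 := by positivity
  have habs : |F * β ^ 3| ≤ 5 / 2 := abs_le.2 ⟨f1, f2⟩
  have h5 : |j * m * k ^ 4 * F| * β ^ 3 ≤ (j * m * k ^ 4) * (5 / 2) := by
    rw [abs_mul, abs_of_nonneg hc]
    have : |F| * β ^ 3 = |F * β ^ 3| := by
      rw [abs_mul, abs_of_pos (by positivity : (0 : ℝ) < β ^ 3)]
    calc j * m * k ^ 4 * |F| * β ^ 3 = (j * m * k ^ 4) * (|F| * β ^ 3) := by ring
      _ ≤ (j * m * k ^ 4) * (5 / 2) := by
        rw [this]; exact mul_le_mul_of_nonneg_left habs hc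
  have h6 : (j * m * k ^ 4) * (5 / 2) ≤ δ * β ^ 3 := by
    have g1 : (j * m * k ^ 4) * (5 / 2) ≤ (j * (j * e * β / 2) * k ^ 4) * (5 / 2) := by
      have : j * m * k ^ 4 ≤ j * (j * e * β / 2) * k ^ 4 := by
        apply mul_le_mul_of_nonneg_right _ (by positivity)
        exact mul_le_mul_of_nonneg_left hmle hj.le
      linarith
    have g2 : (j * (j * e * β / 2) * k ^ 4) * (5 / 2) = (5 / 4 * (j ^ 2 * k ^ 4 * e)) * β := by ring
    have g3 : (5 / 4 * (j ^ 2 * k ^ 4 * e)) * β ≤ (δ * β ^ 2) * β :=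
      mul_le_mul_of_nonneg_right hδ hβ0.le
    calc (j * m * k ^ 4) * (5 / 2) ≤ (5 / 4 * (j ^ 2 * k ^ 4 * e)) * β := by rw [← g2]; exact g1
      _ ≤ (δ * β ^ 2) * β := g3
      _ = δ * β ^ 3 := by ring
  exact le_of_mul_le_mul_right (h5.trans h6) (by positivity)

theorem core (k j : ℕ) (hk : 1 ≤ k) (hj1 : 1 ≤ j) : ∃ N : ℕ, ∀ c m : ℕ, N ≤ c →
    exp (exp 1) ^ j = (((c : ℝ) + k) / ((c : ℝ) - k)) ^ m → k < c ∧ m ≠ 0 ∧
    (∃ n, 2 * m * k * q n = j * c * r n) ∧
    (∃ n, 6 * m * c * k * q n = j * (3 * c ^ 2 - k ^ 2) * r n) := by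
  have hkR : (0 : ℝ) < k := by exact_mod_cast hk
  have hjR : (0 : ℝ) < j := by exact_mod_cast hj1
  set θ0 : ℝ := ((j : ℝ) * k) ^ 2 * exp 1 / 3 with hθ0
  have hθpos : 0 < θ0 := by rw [hθ0]; positivity
  obtain ⟨δ, hδ, B, hB⟩ := levelG θ0 hθpos (by
    intro N hN
    refine e_irr (2 * (j * k) ^ 2) (by nlinarith [Nat.mul_le_mul hj1 hk]) (3 * N) ?_
    push_cast
    rw [hθ0] at hN
    linarith)
  set θ2 : ℝ := 4 / 5 * ((j : ℝ) ^ 2 * k ^ 4 * exp 1) with hθ2
  have hθ2pos : 0 < θ2 := by rw [hθ2]; positivity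
  obtain ⟨δ', hδ', B', hB'⟩ := levelG θ2 hθ2pos (by
    intro N hN
    refine e_irr (8 * (j ^ 2 * k ^ 4)) (by
      have : 1 ≤ j ^ 2 * k ^ 4 := Nat.mul_le_mul (Nat.one_le_pow _ _ hj1) (Nat.one_le_pow _ _ hk)
      omega) (5 * N) ?_
    push_cast
    rw [hθ2] at hN
    linarith)
  refine ⟨max (2 * k + 1) (max (max B B') (max ⌈2 * θ0 * k ^ 2 / δ⌉₊
    ⌈5 / 4 * ((j : ℝ) ^ 2 * k ^ 4 * exp 1) * k ^ 2 / δ'⌉₊)), ?_⟩
  intro c m hc h
  have hc1 : 2 * k + 1 ≤ c := (le_max_left _ _).trans hc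
  have hcR' := (le_max_right _ _).trans hc
  have hcB := (le_max_left _ _).trans hcR'
  have hcC := (le_max_right _ _).trans hcR'
  have hc2 : B ≤ c := (le_max_left _ _).trans hcB
  have hc2' : B' ≤ c := (le_max_right _ _).trans hcB
  have hc3 : 2 * θ0 * k ^ 2 / δ ≤ c :=
    (Nat.le_ceil _).trans (by exact_mod_cast (le_max_left _ _).trans hcC)
  have hc3' : 5 / 4 * ((j : ℝ) ^ 2 * k ^ 4 * exp 1) * k ^ 2 / δ' ≤ c :=
    (Nat.le_ceil _).trans (by exact_mod_cast (le_max_right _ _).trans hcC)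
  have hcR : (2 : ℝ) * k + 1 ≤ c := by exact_mod_cast hc1
  have hcpos : (0 : ℝ) < c := by linarith
  have hβ : (2 : ℝ) ≤ (c : ℝ) / k := by
    rw [le_div_iff₀ hkR]; linarith
  set β : ℝ := (c : ℝ) / k with hβd
  have hcβ : (c : ℝ) = k * β := by rw [hβd]; field_simp
  obtain ⟨l1, l2⟩ := log_bounds β hβ
  have hratio : ((c : ℝ) + k) / ((c : ℝ) - k) = (β + 1) / (β - 1) := by
    rw [hcβ]
    have : β - 1 ≠ 0 := by linarith
    have h3 : (k : ℝ) * β - k ≠ 0 := by
      have : (0 : ℝ) < k * (β - 1) := mul_pos hkR (by linarith)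
      linarith
    field_simp
  rw [hratio] at h
  have hlog : (j : ℝ) * exp 1 = m * log ((β + 1) / (β - 1)) := by
    have := congrArg Real.log h
    rw [Real.log_pow, Real.log_exp, Real.log_pow] at this
    exact this
  have hβ0 : 0 < β := by linarith
  have hβ1 : 0 < β ^ 2 - 1 := by nlinarith
  have hm : (0 : ℝ) ≤ m := by positivity
  have hm0 : m ≠ 0 := by
    rintro rfl
    have : (0 : ℝ) < (j : ℝ) * exp 1 := by positivity
    rw [hlog] at this
    simp at this
  have h1 : 2 * (m : ℝ) * (3 * β ^ 2 + 1) ≤ 3 * β ^ 3 * (j * exp 1) := by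
    have h3 := mul_le_mul_of_nonneg_left l1 hm
    rw [← hlog] at h3
    have h4 : (m : ℝ) * (2 / β + 2 / (3 * β ^ 3)) = 2 * m * (3 * β ^ 2 + 1) / (3 * β ^ 3) := by
      field_simp
    rw [h4, div_le_iff₀ (by positivity)] at h3
    linarith
  have h2 : 3 * β * (β ^ 2 - 1) * (j * exp 1) ≤ 2 * (m : ℝ) * (3 * β ^ 2 - 2) := by
    have h3 := mul_le_mul_of_nonneg_left l2 hm
    rw [← hlog] at h3
    have h4 : (m : ℝ) * (2 / β + 2 / (3 * β * (β ^ 2 - 1))) =
        2 * m * (3 * β ^ 2 - 2) / (3 * β * (β ^ 2 - 1)) := by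
      field_simp
      ring
    rw [h4, le_div_iff₀ (by positivity)] at h3
    linarith
  have hβ2 : ∀ d A : ℝ, 0 < d → A * (k : ℝ) ^ 2 / d ≤ c → A ≤ d * β ^ 2 := by
    intro d A hd hA
    rw [div_le_iff₀ hd] at hA
    have h5 : β ^ 2 = (c : ℝ) ^ 2 / k ^ 2 := by rw [hβd]; ring
    have h8 : d * ((c : ℝ) ^ 2 / (k : ℝ) ^ 2) = d * (c : ℝ) ^ 2 / (k : ℝ) ^ 2 := by ring
    rw [h5, h8, le_div_iff₀ (by positivity)]
    have h7 : (c : ℝ) ≤ (c : ℝ) ^ 2 := by
      have : (1 : ℝ) ≤ c := by linarith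
      nlinarith
    calc A * (k : ℝ) ^ 2 ≤ c * d := hA
      _ = d * c := mul_comm _ _
      _ ≤ d * (c : ℝ) ^ 2 := mul_le_mul_of_nonneg_left h7 hd.le
  refine ⟨by omega, hm0, ?_, ?_⟩
  · have hcl := close j k β (exp 1) m θ0 δ hjR hkR hβ (Real.exp_pos 1) hθ0
      (hβ2 δ (2 * θ0) hδ hc3) h1 h2
    obtain ⟨n, t, ha, hb⟩ := hB (2 * m * k) (j * c) (by
      have : c ≤ j * c := Nat.le_mul_of_pos_left c hj1
      exact_mod_cast hc2.trans this) (by
      refine le_trans (le_of_eq ?_) hcl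
      push_cast
      rw [hcβ]
      congr 1
      ring)
    refine ⟨n, ?_⟩
    have : (2 * (m : ℤ) * k) * q n = (j * c) * r n := by
      rw [ha, hb]; ring
    exact_mod_cast this
  · obtain ⟨l3, l4⟩ := log_bounds2 β hβ
    have hcl := close2 j k β (exp 1) m _ δ' hjR hkR hβ (Real.exp_pos 1) hm hlog
      (hβ2 δ' _ hδ' hc3') l3 l4
    have hkc : k ^ 2 ≤ 3 * c ^ 2 := by nlinarith
    obtain ⟨n, t, ha, hb⟩ := hB' (6 * m * c * k) (j * (3 * c ^ 2 - k ^ 2)) (by
      have h5 : (c : ℤ) ≤ j * (3 * c ^ 2 - k ^ 2) := by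
        have e1 : (1 : ℤ) ≤ j := by exact_mod_cast hj1
        have e2 : (2 : ℤ) * k + 1 ≤ c := by exact_mod_cast hc1
        have e3 : (0 : ℤ) ≤ k := by positivity
        have e4 : (c : ℤ) ≤ 3 * c ^ 2 - k ^ 2 := by nlinarith
        nlinarith
      have h6 : (B' : ℤ) ≤ c := by exact_mod_cast hc2'
      linarith) (by
      refine le_trans (le_of_eq ?_) hcl
      push_cast
      rw [hcβ]
      congr 1
      ring)
    refine ⟨n, ?_⟩
    have h7 : (6 * (m : ℤ) * c * k) * q n = (j * (3 * c ^ 2 - k ^ 2)) * r n := by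
      rw [ha, hb]; ring
    have h8 : ((3 * c ^ 2 - k ^ 2 : ℕ) : ℤ) = 3 * c ^ 2 - k ^ 2 := by
      push_cast [Nat.cast_sub hkc]
      ring
    have h9 : ((6 * m * c * k * q n : ℕ) : ℤ) = ((j * (3 * c ^ 2 - k ^ 2) * r n : ℕ) : ℤ) := by
      rw [Nat.cast_mul (j * (3 * c ^ 2 - k ^ 2)), Nat.cast_mul j, h8]
      push_cast
      exact h7
    exact_mod_cast h9

theorem val_eq (n A B : ℕ) (hA : A ≠ 0) (hB : B ≠ 0) (h : A * q n = B * r n) :
    padicValNat 2 A = padicValNat 2 B := by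
  have : Fact (Nat.Prime 2) := ⟨Nat.prime_two⟩
  have hq := (q_odd n).1
  have hr := (r_odd n).1
  have hq0 : q n ≠ 0 := by omega
  have hr0 : r n ≠ 0 := by omega
  have h1 : padicValNat 2 (q n) = 0 := padicValNat.eq_zero_of_not_dvd (by omega)
  have h2 : padicValNat 2 (r n) = 0 := padicValNat.eq_zero_of_not_dvd (by omega)
  have h3 := congrArg (padicValNat 2) h
  rw [padicValNat.mul hA hq0, padicValNat.mul hB hr0, h1, h2] at h3
  simpa using h3

/-- the two relations between the `2`-adic valuations -/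
theorem core_val (k j c m : ℕ) (hk : 1 ≤ k) (hj : 1 ≤ j) (hkc : k < c) (hm : m ≠ 0)
    (h1 : ∃ n, 2 * m * k * q n = j * c * r n)
    (h2 : ∃ n, 6 * m * c * k * q n = j * (3 * c ^ 2 - k ^ 2) * r n) :
    1 + padicValNat 2 m + padicValNat 2 k = padicValNat 2 j + padicValNat 2 c ∧
    1 + padicValNat 2 m + padicValNat 2 c + padicValNat 2 k =
      padicValNat 2 j + padicValNat 2 (3 * c ^ 2 - k ^ 2) := by
  have : Fact (Nat.Prime 2) := ⟨Nat.prime_two⟩
  obtain ⟨n, h1⟩ := h1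
  obtain ⟨n', h2⟩ := h2
  have hk0 : k ≠ 0 := by omega
  have hj0 : j ≠ 0 := by omega
  have hc0 : c ≠ 0 := by omega
  have hlt : k ^ 2 < 3 * c ^ 2 := by nlinarith
  have hd0 : 3 * c ^ 2 - k ^ 2 ≠ 0 := by omega
  have e1 := val_eq n (2 * m * k) (j * c) (by positivity) (by positivity) h1
  have e2 := val_eq n' (6 * m * c * k) (j * (3 * c ^ 2 - k ^ 2)) (by positivity)
    (Nat.mul_ne_zero hj0 hd0) h2
  have v2 : padicValNat 2 2 = 1 := padicValNat.self (by norm_num)
  have v6 : padicValNat 2 6 = 1 := by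
    rw [show (6 : ℕ) = 2 * 3 by norm_num, padicValNat.mul (by norm_num) (by norm_num), v2,
      padicValNat.eq_zero_of_not_dvd (by norm_num)]
  rw [padicValNat.mul (by positivity) hk0, padicValNat.mul (by norm_num) hm, v2,
    padicValNat.mul hj0 hc0] at e1
  rw [padicValNat.mul (by positivity) hk0, padicValNat.mul (by positivity) hc0,
    padicValNat.mul (by norm_num) hm, v6, padicValNat.mul hj0 hd0] at e2
  exact ⟨e1, e2⟩

theorem val_odd (x : ℕ) (hx : x % 2 = 1) : padicValNat 2 x = 0 :=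
  padicValNat.eq_zero_of_not_dvd (by omega)

theorem val_even (x : ℕ) (hx : x % 2 = 0) (h0 : x ≠ 0) : 1 ≤ padicValNat 2 x := by
  have : Fact (Nat.Prime 2) := ⟨Nat.prime_two⟩
  exact one_le_padicValNat_of_dvd h0 (by omega)

/-- Let `D` be given and let `p / q` be a fraction in lowest terms with `0 < p - q ≤ D` and `q`
sufficiently large. If `(e ^ e) ^ j = (p / q) ^ m` for some `1 ≤ j ≤ D` and `m ≥ 0`, then `4`
divides `j` and `p - q`, and `v₂ j = v₂ m + v₂ (p - q)`. In particular `e ^ e` is not a power of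
`p / q`. -/
theorem result (D : ℕ) : ∃ N : ℕ, ∀ p q m j : ℕ, N ≤ q → q < p → p ≤ q + D →
    Nat.Coprime p q → 1 ≤ j → j ≤ D →
    (Real.exp (Real.exp 1)) ^ j = ((p : ℝ) / (q : ℝ)) ^ m →
    4 ∣ j ∧ 4 ∣ p - q ∧ padicValNat 2 j = padicValNat 2 m + padicValNat 2 (p - q) := by
  have : Fact (Nat.Prime 2) := ⟨Nat.prime_two⟩
  have hN : ∀ k j : ℕ, ∃ N : ℕ, 1 ≤ k → 1 ≤ j → ∀ c m : ℕ, N ≤ c →
      exp (exp 1) ^ j = (((c : ℝ) + k) / ((c : ℝ) - k)) ^ m →
      1 + padicValNat 2 m + padicValNat 2 k = padicValNat 2 j + padicValNat 2 c ∧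
      1 + padicValNat 2 m + padicValNat 2 c + padicValNat 2 k =
        padicValNat 2 j + padicValNat 2 (3 * c ^ 2 - k ^ 2) := by
    intro k j
    by_cases hk : 1 ≤ k
    · by_cases hj : 1 ≤ j
      · obtain ⟨N, hN⟩ := core k j hk hj
        refine ⟨N, fun _ _ c m hc h => ?_⟩
        obtain ⟨h1, h2, h3, h4⟩ := hN c m hc h
        exact core_val k j c m hk hj h1 h2 h3 h4
      · exact ⟨0, fun _ h => absurd h hj⟩
    · exact ⟨0, fun h => absurd h hk⟩
  choose N hN using hN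
  refine ⟨1 + D + ∑ k ∈ Finset.range (D + 1), ∑ j ∈ Finset.range (D + 1), N k j, ?_⟩
  intro p q m j hq hpq hpD hcop hj hjD h
  have hle : ∀ k j, k ≤ D → j ≤ D → N k j ≤
      ∑ k ∈ Finset.range (D + 1), ∑ j ∈ Finset.range (D + 1), N k j := by
    intro k j hk hj
    have h1 : N k j ≤ ∑ j ∈ Finset.range (D + 1), N k j :=
      Finset.single_le_sum (f := fun j => N k j) (fun _ _ => Nat.zero_le _)
        (Finset.mem_range.2 (by omega))
    exact h1.trans (Finset.single_le_sum (f := fun k => ∑ j ∈ Finset.range (D + 1), N k j)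
      (fun _ _ => Nat.zero_le _) (Finset.mem_range.2 (by omega)))
  have hqR : (0 : ℝ) < q := by
    have : 0 < q := by omega
    exact_mod_cast this
  have hnot : ¬ (p % 2 = 0 ∧ q % 2 = 0) := by
    rintro ⟨a1, a2⟩
    have a3 : 2 ∣ Nat.gcd p q := Nat.dvd_gcd (by omega) (by omega)
    rw [hcop] at a3
    omega
  rcases Nat.even_or_odd (p + q) with he | ho
  · -- `p + q = 2 c`, `p - q = 2 k`
    obtain ⟨c, hc⟩ := he
    obtain ⟨k, hk⟩ : ∃ k, p = q + 2 * k := by
      refine ⟨(p - q) / 2, by omega⟩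
    have hcq : c = q + k := by omega
    have hqodd : q % 2 = 1 := by omega
    have hk1 : 1 ≤ k := by omega
    obtain ⟨h1, h2⟩ := hN k j hk1 hj c m (by
      have := hle k j (by omega) hjD
      omega) (by
      rw [h]
      congr 1
      rw [hcq, hk]
      push_cast
      have e1 : (q : ℝ) + k - k = q := by ring
      rw [e1]
      congr 1
      ring)
    have hkc : k < c := by omega
    have hsq : k ^ 2 ≤ 3 * c ^ 2 := by nlinarith
    obtain ⟨w, hw⟩ : ∃ w, 3 * c ^ 2 = w + k ^ 2 := ⟨3 * c ^ 2 - k ^ 2, by omega⟩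
    have hw' : 3 * c ^ 2 - k ^ 2 = w := by omega
    rw [hw'] at h2
    have hwodd : w % 2 = 1 := by
      have e3 : (3 * c ^ 2) % 2 = (w + k ^ 2) % 2 := by rw [hw]
      rcases Nat.even_or_odd' c with ⟨c', hc' | hc'⟩ <;>
        rcases Nat.even_or_odd' k with ⟨k', hk' | hk'⟩
      · omega
      · subst hc'; subst hk'
        ring_nf at e3
        omega
      · subst hc'; subst hk'
        ring_nf at e3
        omega
      · omega
    rw [val_odd w hwodd] at h2
    rcases Nat.mod_two_eq_zero_or_one k with hk2 | hk2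
    · -- `k` even, `c` odd
      have hc2 : c % 2 = 1 := by omega
      rw [val_odd c hc2] at h1 h2
      have hpq' : p - q = 2 * k := by omega
      have hv2 : padicValNat 2 2 = 1 := padicValNat.self (by norm_num)
      have hvk : padicValNat 2 (p - q) = 1 + padicValNat 2 k := by
        rw [hpq', padicValNat.mul (by norm_num) (by omega), hv2]
      have hke := val_even k hk2 (by omega)
      refine ⟨?_, by omega, by omega⟩
      have h5 : 2 ^ 2 ∣ j := by
        rw [padicValNat_dvd_iff_le (by omega)]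
        omega
      simpa using h5
    · -- `k` odd, `c` even
      exfalso
      have hc2 : c % 2 = 0 := by omega
      have hce := val_even c hc2 (by omega)
      rw [val_odd k hk2] at h1 h2
      omega
  · -- `c = p + q`, `k = p - q`, both odd
    exfalso
    obtain ⟨k, hk⟩ : ∃ k, p = q + k := ⟨p - q, by omega⟩
    have hk1 : 1 ≤ k := by omega
    obtain ⟨h1, h2⟩ := hN k j hk1 hj (p + q) m (by
      have := hle k j (by omega) hjD
      omega) (by
      rw [h]
      congr 1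
      rw [hk]
      push_cast
      have e1 : (q : ℝ) + k + q - k = 2 * q := by ring
      have e2 : (q : ℝ) + k + q + k = 2 * (q + k) := by ring
      rw [e1, e2, mul_div_mul_left _ _ (by norm_num)])
    have hcodd : (p + q) % 2 = 1 := Nat.odd_iff.1 ho
    have hkodd : k % 2 = 1 := by omega
    have hkc : k < p + q := by omega
    have hsq : k ^ 2 < 3 * (p + q) ^ 2 := by nlinarith
    obtain ⟨w, hw⟩ : ∃ w, 3 * (p + q) ^ 2 = w + k ^ 2 := ⟨3 * (p + q) ^ 2 - k ^ 2, by omega⟩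
    have hw' : 3 * (p + q) ^ 2 - k ^ 2 = w := by omega
    have hw0 : w ≠ 0 := by omega
    rw [hw'] at h2
    have hweven : w % 2 = 0 := by
      have e3 : (3 * (p + q) ^ 2) % 2 = (w + k ^ 2) % 2 := by rw [hw]
      obtain ⟨c', hc'⟩ : ∃ c', p + q = 2 * c' + 1 := ⟨(p + q) / 2, by omega⟩
      obtain ⟨k', hk'⟩ : ∃ k', k = 2 * k' + 1 := ⟨k / 2, by omega⟩
      rw [hc', hk'] at e3
      ring_nf at e3
      omega
    have hwe := val_even w hweven hw0
    rw [val_odd k hkodd, val_odd (p + q) hcodd] at h1 h2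
    omega

end Pool.Agent.Results.MP_58ae59_nt.PowersNearOne
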